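import Pool.Agent.H798.BV.Stm5

set_option autoImplicit false

/-!
# (GAY) from (GAI): rescaling (helper747)
-/

namespace Pool.Agent.H747.BV

open Pool.Agent.H798.BV

theorem t_GAY (h : S_GAI) : S_GAY := by
  intro K L hK hL
  obtain ⟨c, hc, hG⟩ := h (3 * K) (by positivity)
  have hL0 : 0 < L := by linarith
  refine ⟨c / L, by positivity, ?_⟩
  intro n l B s κ Y hκ0 hκ1 hs hsK hB hY hYL
  set R : ℝ := Real.sqrt Y with hR
  have hY0 : 0 < Y := by linarith
  have hR2 : R ^ 2 = Y := Real.sq_sqrt hY0.le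
  have hR0 : 0 < R := Real.sqrt_pos.2 hY0
  have hR3 : 1 / 3 ≤ R := by nlinarith
  have hRL : R ≤ L := by nlinarith
  have hRc : (R : ℂ) ≠ 0 := by exact_mod_cast hR0.ne'
  have h1 := hG n (fun k => (R : ℂ)⁻¹ * l k) B ((R : ℂ)⁻¹ * s) κ hκ0 hκ1 (by
      rw [← Complex.ofReal_inv, Complex.re_ofReal_mul]
      positivity) (by
      rw [norm_mul, norm_inv, Complex.norm_real, Real.norm_of_nonneg hR0.le,
        inv_mul_le_iff₀ hR0]
      nlinarith) (by
      rw [← Complex.ofReal_inv, Complex.re_ofReal_mul]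
      have h2 : ∀ k ∈ B, ‖((R⁻¹ : ℝ) : ℂ) * l k‖ = R⁻¹ * ‖l k‖ := by
        intro k _
        rw [norm_mul, Complex.norm_real, Real.norm_of_nonneg (inv_nonneg.2 hR0.le)]
      rw [Finset.sum_congr rfl h2, ← Finset.mul_sum]
      have h3 := mul_le_mul_of_nonneg_left hB (inv_nonneg.2 hR0.le)
      linarith)
  -- the substitution
  have h2 := MeasureTheory.integral_comp_mul_left_Ioi (fun x : ℝ =>
    (∏ k ∈ B, (1 - (x : ℂ) * l k)) * Complex.exp (-((x : ℂ) * s) - (x : ℂ) ^ 2 * Y / 2)) 0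
    (inv_pos.2 hR0)
  have h3 : ∀ x : ℝ, (∏ k ∈ B, (1 - ((R⁻¹ * x : ℝ) : ℂ) * l k)) *
      Complex.exp (-(((R⁻¹ * x : ℝ) : ℂ) * s) - ((R⁻¹ * x : ℝ) : ℂ) ^ 2 * Y / 2) =
      (∏ k ∈ B, (1 - (x : ℂ) * ((R : ℂ)⁻¹ * l k))) *
        Complex.exp (-((x : ℂ) * ((R : ℂ)⁻¹ * s)) - (x : ℂ) ^ 2 / 2) := by
    intro x
    have hYc : (Y : ℂ) = (R : ℂ) ^ 2 := by
      rw [← hR2]
      push_cast
      rfl
    congr 1
    · refine Finset.prod_congr rfl fun k _ => ?_
      push_cast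
      ring
    · rw [hYc]
      congr 1
      push_cast
      field_simp
  simp only [h3, mul_zero, inv_inv] at h2
  rw [h2, norm_smul, Real.norm_of_nonneg hR0.le] at h1
  have h4 : (1 - κ) * (c / L) * R ≤ (1 - κ) * c := by
    have h5 : c / L * R ≤ c := by
      rw [div_mul_eq_mul_div, div_le_iff₀ hL0]
      exact mul_le_mul_of_nonneg_left hRL hc.le
    nlinarith
  have h6 := h4.trans h1
  rw [mul_comm R] at h6
  exact le_of_mul_le_mul_right h6 hR0

end Pool.Agent.H747.BV
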